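import Mathlib

/-!
Graded automorphisms of the algebra of power series in countably many variables whose homogeneous
components have absolutely summable coefficients: every linear automorphism of the degree one part
extends to a multiplicative family of linear automorphisms of all homogeneous parts.
-/

set_option autoImplicit false

namespace Pool.Agent.R301.FrAlg

open MvPowerSeries

set_option maxHeartbeats 4000000
set_option synthInstance.maxHeartbeats 400000

noncomputable section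

/-- power series in countably many variables -/
abbrev F := MvPowerSeries ℕ ℂ

/-- homogeneous power series of degree `d` with absolutely summable coefficients -/
def G (d : ℕ) : Submodule ℂ F where
  carrier := {f | (∀ r : ℕ →₀ ℕ, r.degree ≠ d → coeff r f = 0) ∧
    Summable (fun r : ℕ →₀ ℕ => ‖coeff r f‖)}
  zero_mem' := ⟨fun r _ => by simp, by simp⟩
  add_mem' := by
    rintro a b ⟨ha, ha'⟩ ⟨hb, hb'⟩
    refine ⟨fun r hr => by rw [map_add, ha r hr, hb r hr, add_zero], ?_⟩
    apply Summable.of_nonneg_of_le (fun _ => norm_nonneg _) (fun r => ?_) (ha'.add hb')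
    rw [map_add]
    exact norm_add_le _ _
  smul_mem' := by
    rintro c a ⟨ha, ha'⟩
    refine ⟨fun r hr => by rw [map_smul, ha r hr, smul_zero], ?_⟩
    have : (fun r : ℕ →₀ ℕ => ‖coeff r (c • a)‖) = fun r => ‖c‖ * ‖coeff r a‖ := by
      ext r
      rw [map_smul, norm_smul]
    rw [this]
    exact ha'.mul_left _

theorem mem_G {d : ℕ} {f : F} : f ∈ G d ↔ (∀ r : ℕ →₀ ℕ, r.degree ≠ d → coeff r f = 0) ∧
    Summable (fun r : ℕ →₀ ℕ => ‖coeff r f‖) := Iff.rfl

theorem norm_coeff_mul_le (f g : F) (r : ℕ →₀ ℕ) : ‖coeff r (f * g)‖ ≤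
    ∑ q ∈ Finset.HasAntidiagonal.antidiagonal r, ‖coeff q.1 f‖ * ‖coeff q.2 g‖ := by
  classical
  rw [coeff_mul]
  refine (norm_sum_le _ _).trans (Finset.sum_le_sum fun q _ => ?_)
  rw [norm_mul]

theorem summable_anti0 {u v : (ℕ →₀ ℕ) → ℝ}
    (h : Summable fun x : (ℕ →₀ ℕ) × (ℕ →₀ ℕ) => u x.1 * v x.2) :
    Summable (fun r : ℕ →₀ ℕ =>
      ∑ q ∈ Finset.HasAntidiagonal.antidiagonal r, u q.1 * v q.2) :=
  summable_sum_mul_antidiagonal_of_summable_mul h

theorem summable_anti {f g : F} (hf : Summable (fun r : ℕ →₀ ℕ => ‖coeff r f‖))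
    (hg : Summable (fun r : ℕ →₀ ℕ => ‖coeff r g‖)) :
    Summable (fun r : ℕ →₀ ℕ =>
      ∑ q ∈ Finset.HasAntidiagonal.antidiagonal r, ‖coeff q.1 f‖ * ‖coeff q.2 g‖) := by
  have h := Summable.mul_of_nonneg hf hg (fun _ => norm_nonneg _) (fun _ => norm_nonneg _)
  exact summable_anti0 (u := fun r => ‖coeff r f‖) (v := fun r => ‖coeff r g‖) h

theorem G_mul {i j : ℕ} {a b : F} (ha : a ∈ G i) (hb : b ∈ G j) : a * b ∈ G (i + j) := by
  classical
  refine ⟨fun r hr => ?_, ?_⟩
  · rw [coeff_mul]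
    apply Finset.sum_eq_zero
    rintro q hq
    rw [Finset.HasAntidiagonal.mem_antidiagonal] at hq
    by_cases h1 : q.1.degree = i
    · have h2 : q.2.degree ≠ j := by
        intro h2
        apply hr
        rw [← hq, map_add, h1, h2]
      rw [hb.1 _ h2, mul_zero]
    · rw [ha.1 _ h1, zero_mul]
  · exact Summable.of_nonneg_of_le (fun _ => norm_nonneg _) (fun r => norm_coeff_mul_le a b r)
      (summable_anti ha.2 hb.2)

theorem G_mul' {i j n : ℕ} (h : i + j = n) {a b : F} (ha : a ∈ G i) (hb : b ∈ G j) :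
    a * b ∈ G n := h ▸ G_mul ha hb

theorem G_zero {a : F} (ha : a ∈ G 0) : ∃ c : ℂ, a = C c := by
  classical
  refine ⟨coeff 0 a, ?_⟩
  ext r
  rw [coeff_C]
  split_ifs with h
  · rw [h]
  · apply ha.1
    intro h0
    apply h
    exact (Finsupp.degree_eq_zero_iff r).mp h0

theorem C_mul' (c : ℂ) (b : F) : C c * b = c • b := (smul_eq_C_mul b c).symm

theorem C_mem (c : ℂ) : (C c : F) ∈ G 0 := by
  classical
  refine ⟨fun r hr => ?_, ?_⟩
  · rw [coeff_C, if_neg]
    rintro rfl
    exact hr (by simp)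
  · apply summable_of_ne_finset_zero (s := {0})
    intro r hr
    rw [coeff_C, if_neg, norm_zero]
    simpa using hr

theorem pd_zero {a : F} (ha : a ∈ G 0) (k : ℕ) : pderiv ℂ k a = 0 := by
  obtain ⟨c, rfl⟩ := G_zero ha
  exact pderiv_C

theorem pd_mem {d : ℕ} {a : F} (ha : a ∈ G (d + 1)) (k : ℕ) : pderiv ℂ k a ∈ G d := by
  refine ⟨fun r hr => ?_, ?_⟩
  · rw [coeff_pderiv, ha.1, zero_mul]
    rw [map_add, Finsupp.degree_single]
    intro h
    exact hr (by omega)
  · have hinj : Function.Injective (fun r : ℕ →₀ ℕ => r + Finsupp.single k 1) :=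
      add_left_injective _
    have h1 := (ha.2.comp_injective hinj).mul_left ((d : ℝ) + 1)
    apply Summable.of_nonneg_of_le (fun _ => norm_nonneg _) (fun r => ?_) h1
    rw [coeff_pderiv, norm_mul, mul_comm]
    simp only [Function.comp]
    by_cases h : (r + Finsupp.single k 1).degree = d + 1
    · apply mul_le_mul_of_nonneg_right _ (norm_nonneg _)
      have h2 : r.degree = d := by
        rw [map_add, Finsupp.degree_single] at h
        omega
      have h3 : r k ≤ d := by
        rw [← h2]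
        exact Finsupp.le_degree k r
      have h4 : ‖((r k : ℂ) + 1)‖ = (r k : ℝ) + 1 := by
        have : ((r k : ℂ) + 1) = ((r k + 1 : ℕ) : ℂ) := by push_cast; ring
        rw [this, Complex.norm_natCast]
        push_cast
        ring
      rw [h4]
      have : (r k : ℝ) ≤ d := by exact_mod_cast h3
      linarith
    · rw [ha.1 _ h, norm_zero, mul_zero, mul_zero]

theorem pd_mem' {i : ℕ} (hi : 0 < i) {a : F} (ha : a ∈ G i) (k : ℕ) :
    pderiv ℂ k a ∈ G (i - 1) := by
  obtain ⟨d, rfl⟩ := Nat.exists_eq_succ_of_ne_zero hi.ne'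
  exact pd_mem ha k

theorem eq_zero_of_pd {d : ℕ} (hd : 0 < d) {a : F} (ha : a ∈ G d)
    (h : ∀ k, pderiv ℂ k a = 0) : a = 0 := by
  apply pderiv.ext (R := ℂ)
  · intro k
    rw [h k, map_zero]
  · rw [map_zero, ← coeff_zero_eq_constantCoeff_apply]
    apply ha.1
    simp only [map_zero, ne_eq]
    omega

theorem pd_mul (k : ℕ) (a b : F) : pderiv ℂ k (a * b) = pderiv ℂ k a * b + a * pderiv ℂ k b := by
  rw [Derivation.leibniz, smul_eq_mul, smul_eq_mul]
  ring

/-! ### Graded derivations of negative degree -/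

/-- `D` is a graded derivation of degree `-e` in degrees below `n` -/
def IsDer (D : ℕ → F →ₗ[ℂ] F) (e n : ℕ) : Prop :=
  (∀ i < n, ∀ a ∈ G i, (e ≤ i → D i a ∈ G (i - e)) ∧ (i < e → D i a = 0)) ∧
  ∀ i j, i + j < n → ∀ a ∈ G i, ∀ b ∈ G j, D (i + j) (a * b) = D i a * b + a * D j b

def genW (D : ℕ → F →ₗ[ℂ] F) (n : ℕ) : Set (F × F) :=
  {x | ∃ i j a b, 0 < i ∧ 0 < j ∧ i + j = n ∧ a ∈ G i ∧ b ∈ G j ∧
    x = (a * b, D i a * b + a * D j b)}

def W (D : ℕ → F →ₗ[ℂ] F) (n : ℕ) : Submodule ℂ (F × F) := Submodule.span ℂ (genW D n)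

def comm (D : ℕ → F →ₗ[ℂ] F) (k : ℕ) (i : ℕ) : F →ₗ[ℂ] F :=
  (pderiv ℂ k : F →ₗ[ℂ] F).comp (D i) - (D (i - 1)).comp (pderiv ℂ k : F →ₗ[ℂ] F)

theorem comm_apply (D : ℕ → F →ₗ[ℂ] F) (k i : ℕ) (a : F) :
    comm D k i a = pderiv ℂ k (D i a) - D (i - 1) (pderiv ℂ k a) := rfl

theorem isDer_comm {D : ℕ → F →ₗ[ℂ] F} {e n : ℕ} (h : IsDer D e n) (k : ℕ) :
    IsDer (comm D k) (e + 1) n := by
  refine ⟨fun i hi a ha => ⟨fun hei => ?_, fun hei => ?_⟩, fun i j hij a ha b hb => ?_⟩
  · rw [comm_apply]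
    apply Submodule.sub_mem
    · have h1 := (h.1 i hi a ha).1 (by omega)
      have h2 := pd_mem' (by omega) h1 k
      have h3 : i - e - 1 = i - (e + 1) := by omega
      rwa [h3] at h2
    · have h1 := (h.1 (i - 1) (by omega) _ (pd_mem' (by omega) ha k)).1 (by omega)
      have h3 : i - 1 - e = i - (e + 1) := by omega
      rwa [h3] at h1
  · rw [comm_apply]
    have h1 : pderiv ℂ k (D i a) = 0 := by
      rcases Nat.lt_or_ge i e with h2 | h2
      · rw [(h.1 i hi a ha).2 h2, map_zero]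
      · have h3 := (h.1 i hi a ha).1 h2
        have h4 : i - e = 0 := by omega
        rw [h4] at h3
        exact pd_zero h3 k
    have h2 : D (i - 1) (pderiv ℂ k a) = 0 := by
      rcases Nat.eq_zero_or_pos i with h0 | h0
      · subst h0
        rw [pd_zero ha k, map_zero]
      · exact (h.1 (i - 1) (by omega) _ (pd_mem' h0 ha k)).2 (by omega)
    rw [h1, h2, sub_zero]
  · rw [comm_apply, comm_apply, comm_apply, h.2 i j hij a ha b hb, pd_mul, map_add, map_add,
      pd_mul, pd_mul]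
    have h1 : D (i + j - 1) (pderiv ℂ k a * b) =
        D (i - 1) (pderiv ℂ k a) * b + pderiv ℂ k a * D j b := by
      rcases Nat.eq_zero_or_pos i with h0 | h0
      · subst h0
        rw [pd_zero ha k, zero_mul, map_zero, map_zero, zero_mul, zero_mul, zero_add]
      · have h2 : i + j - 1 = (i - 1) + j := by omega
        rw [h2]
        exact h.2 _ _ (by omega) _ (pd_mem' h0 ha k) _ hb
    have h1' : D (i + j - 1) (a * pderiv ℂ k b) =
        D i a * pderiv ℂ k b + a * D (j - 1) (pderiv ℂ k b) := by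
      rcases Nat.eq_zero_or_pos j with h0 | h0
      · subst h0
        rw [pd_zero hb k, mul_zero, map_zero, map_zero, mul_zero, mul_zero, zero_add]
      · have h2 : i + j - 1 = i + (j - 1) := by omega
        rw [h2]
        exact h.2 _ _ (by omega) _ ha _ (pd_mem' h0 hb k)
    rw [h1, h1']
    ring

theorem W_snd_mem {D : ℕ → F →ₗ[ℂ] F} {e n : ℕ} (h : IsDer D e n) (hen : e ≤ n) {x : F × F}
    (hx : x ∈ W D n) : x.2 ∈ G (n - e) := by
  unfold W at hx
  induction hx using Submodule.span_induction with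
  | mem x hx =>
    obtain ⟨i, j, a, b, hi, hj, hij, ha, hb, rfl⟩ := hx
    apply Submodule.add_mem
    · rcases Nat.lt_or_ge i e with h2 | h2
      · rw [(h.1 i (by omega) a ha).2 h2, zero_mul]
        exact Submodule.zero_mem _
      · exact G_mul' (by omega) ((h.1 i (by omega) a ha).1 h2) hb
    · rcases Nat.lt_or_ge j e with h2 | h2
      · rw [(h.1 j (by omega) b hb).2 h2, mul_zero]
        exact Submodule.zero_mem _
      · exact G_mul' (by omega) ha ((h.1 j (by omega) b hb).1 h2)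
  | zero => exact Submodule.zero_mem _
  | add x y _ _ hx hy => exact Submodule.add_mem _ hx hy
  | smul c x _ hx => exact Submodule.smul_mem _ _ hx

theorem W_comm {D : ℕ → F →ₗ[ℂ] F} {e n : ℕ} (h : IsDer D e n) (k : ℕ) {x : F × F}
    (hx : x ∈ W D n) : ∃ y ∈ W (comm D k) n, y.1 = x.1 ∧
      pderiv ℂ k x.2 = y.2 + D (n - 1) (pderiv ℂ k x.1) := by
  unfold W at hx
  induction hx using Submodule.span_induction with
  | mem x hx =>
    obtain ⟨i, j, a, b, hi, hj, hij, ha, hb, rfl⟩ := hx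
    refine ⟨(a * b, comm D k i a * b + a * comm D k j b),
      Submodule.subset_span ⟨i, j, a, b, hi, hj, hij, ha, hb, rfl⟩, rfl, ?_⟩
    simp only
    rw [comm_apply, comm_apply, map_add, pd_mul, pd_mul, pd_mul, map_add]
    have h1 : D (n - 1) (pderiv ℂ k a * b) =
        D (i - 1) (pderiv ℂ k a) * b + pderiv ℂ k a * D j b := by
      have h2 : n - 1 = (i - 1) + j := by omega
      rw [h2]
      exact h.2 _ _ (by omega) _ (pd_mem' hi ha k) _ hb
    have h1' : D (n - 1) (a * pderiv ℂ k b) =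
        D i a * pderiv ℂ k b + a * D (j - 1) (pderiv ℂ k b) := by
      have h2 : n - 1 = i + (j - 1) := by omega
      rw [h2]
      exact h.2 _ _ (by omega) _ ha _ (pd_mem' hj hb k)
    rw [h1, h1']
    ring
  | zero => exact ⟨0, Submodule.zero_mem _, rfl, by simp⟩
  | add x y _ _ hx hy =>
    obtain ⟨x', hx', h1, h2⟩ := hx
    obtain ⟨y', hy', h3, h4⟩ := hy
    refine ⟨x' + y', Submodule.add_mem _ hx' hy', by rw [Prod.fst_add, Prod.fst_add, h1, h3], ?_⟩
    rw [Prod.snd_add, Prod.snd_add, Prod.fst_add, map_add, map_add, map_add, h2, h4]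
    ring
  | smul c x _ hx =>
    obtain ⟨x', hx', h1, h2⟩ := hx
    refine ⟨c • x', Submodule.smul_mem _ _ hx', by rw [Prod.smul_fst, Prod.smul_fst, h1], ?_⟩
    rw [Prod.smul_snd, Prod.smul_snd, Prod.smul_fst, Derivation.map_smul, Derivation.map_smul,
      map_smul, h2, smul_add]

/-- graded derivations of negative degree respect all relations between products -/
theorem der_claim : ∀ (t e n : ℕ), n = t + e → ∀ D : ℕ → F →ₗ[ℂ] F, IsDer D e n →
    ∀ x ∈ W D n, x.1 = 0 → x.2 = 0 := by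
  intro t
  induction t with
  | zero =>
    intro e n hn D hD x hx h0
    clear h0
    unfold W at hx
    induction hx using Submodule.span_induction with
    | mem x hx =>
      obtain ⟨i, j, a, b, hi, hj, hij, ha, hb, rfl⟩ := hx
      simp only
      rw [(hD.1 i (by omega) a ha).2 (by omega), (hD.1 j (by omega) b hb).2 (by omega)]
      simp
    | zero => rfl
    | add x y _ _ hx hy => rw [Prod.snd_add, hx, hy, add_zero]
    | smul c x _ hx => rw [Prod.smul_snd, hx, smul_zero]
  | succ t ih =>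
    intro e n hn D hD x hx h0
    have h1 := W_snd_mem hD (by omega) hx
    have h2 : n - e = t + 1 := by omega
    rw [h2] at h1
    apply eq_zero_of_pd (by omega) h1
    intro k
    obtain ⟨y, hy, h3, h4⟩ := W_comm hD k hx
    have h5 := ih (e + 1) n (by omega) _ (isDer_comm hD k) y hy (by rw [h3, h0])
    rw [h4, h5, h0, map_zero, map_zero, add_zero]

/-! ### Multiplicative families of linear automorphisms -/

/-- `T` is a family of linear automorphisms preserving degrees, multiplicative below degree `n` -/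
def Good (T : ℕ → F ≃ₗ[ℂ] F) (n : ℕ) : Prop :=
  (∀ i < n, ∀ a ∈ G i, T i a ∈ G i ∧ (T i).symm a ∈ G i) ∧
  ∀ i j, i + j < n → ∀ a ∈ G i, ∀ b ∈ G j, T (i + j) (a * b) = T i a * T j b

theorem Good.symm {T : ℕ → F ≃ₗ[ℂ] F} {n : ℕ} (h : Good T n) : Good (fun i => (T i).symm) n := by
  refine ⟨fun i hi a ha => ⟨(h.1 i hi a ha).2, by simpa using (h.1 i hi a ha).1⟩,
    fun i j hij a ha b hb => ?_⟩
  apply (T (i + j)).injective
  rw [h.2 i j hij _ (h.1 i (by omega) a ha).2 _ (h.1 j (by omega) b hb).2]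
  simp

def genV (T : ℕ → F ≃ₗ[ℂ] F) (n : ℕ) : Set (F × F) :=
  {x | ∃ i j a b, 0 < i ∧ 0 < j ∧ i + j = n ∧ a ∈ G i ∧ b ∈ G j ∧ x = (a * b, T i a * T j b)}

def V (T : ℕ → F ≃ₗ[ℂ] F) (n : ℕ) : Submodule ℂ (F × F) := Submodule.span ℂ (genV T n)

def dl (T : ℕ → F ≃ₗ[ℂ] F) (k : ℕ) (i : ℕ) : F →ₗ[ℂ] F :=
  ((T (i - 1)).symm : F →ₗ[ℂ] F).comp ((pderiv ℂ k : F →ₗ[ℂ] F).comp (T i : F →ₗ[ℂ] F))

theorem dl_apply (T : ℕ → F ≃ₗ[ℂ] F) (k i : ℕ) (a : F) :
    dl T k i a = (T (i - 1)).symm (pderiv ℂ k (T i a)) := rfl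

theorem pd_T (T : ℕ → F ≃ₗ[ℂ] F) (k i : ℕ) (a : F) :
    pderiv ℂ k (T i a) = T (i - 1) (dl T k i a) := by
  rw [dl_apply, LinearEquiv.apply_symm_apply]

theorem isDer_dl {T : ℕ → F ≃ₗ[ℂ] F} {n : ℕ} (h : Good T n) (k : ℕ) : IsDer (dl T k) 1 n := by
  have key : ∀ i < n, ∀ a ∈ G i, (1 ≤ i → dl T k i a ∈ G (i - 1)) ∧ (i < 1 → dl T k i a = 0) := by
    intro i hi a ha
    refine ⟨fun h1 => ?_, fun h1 => ?_⟩
    · rw [dl_apply]
      exact (h.1 (i - 1) (by omega) _ (pd_mem' (by omega) (h.1 i hi a ha).1 k)).2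
    · have h0 : i = 0 := by omega
      subst h0
      rw [dl_apply, pd_zero (h.1 0 hi a ha).1 k, map_zero]
  refine ⟨key, fun i j hij a ha b hb => ?_⟩
  rw [dl_apply, h.2 i j hij a ha b hb, pd_mul]
  apply (T (i + j - 1)).injective
  rw [LinearEquiv.apply_symm_apply, map_add]
  congr 1
  · rcases Nat.eq_zero_or_pos i with h0 | h0
    · subst h0
      rw [(key 0 (by omega) a ha).2 (by omega), pd_zero (h.1 0 (by omega) a ha).1 k, zero_mul,
        zero_mul, map_zero]
    · have h2 : i + j - 1 = (i - 1) + j := by omega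
      rw [pd_T, h2, h.2 (i - 1) j (by omega) _ ((key i (by omega) a ha).1 (by omega)) _ hb]
  · rcases Nat.eq_zero_or_pos j with h0 | h0
    · subst h0
      rw [(key 0 (by omega) b hb).2 (by omega), pd_zero (h.1 0 (by omega) b hb).1 k, mul_zero,
        mul_zero, map_zero]
    · have h2 : i + j - 1 = i + (j - 1) := by omega
      rw [pd_T, h2, h.2 i (j - 1) (by omega) _ ha _ ((key j (by omega) b hb).1 (by omega))]

theorem V_mem {T : ℕ → F ≃ₗ[ℂ] F} {n : ℕ} (h : Good T n) {x : F × F} (hx : x ∈ V T n) :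
    x.1 ∈ G n ∧ x.2 ∈ G n := by
  unfold V at hx
  induction hx using Submodule.span_induction with
  | mem x hx =>
    obtain ⟨i, j, a, b, hi, hj, hij, ha, hb, rfl⟩ := hx
    exact ⟨G_mul' hij ha hb, G_mul' hij (h.1 i (by omega) a ha).1 (h.1 j (by omega) b hb).1⟩
  | zero => exact ⟨Submodule.zero_mem _, Submodule.zero_mem _⟩
  | add x y _ _ hx hy => exact ⟨Submodule.add_mem _ hx.1 hy.1, Submodule.add_mem _ hx.2 hy.2⟩
  | smul c x _ hx => exact ⟨Submodule.smul_mem _ _ hx.1, Submodule.smul_mem _ _ hx.2⟩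

theorem V_dl {T : ℕ → F ≃ₗ[ℂ] F} {n : ℕ} (h : Good T n) (k : ℕ) {x : F × F}
    (hx : x ∈ V T n) : ∃ y ∈ W (dl T k) n, y.1 = x.1 ∧ pderiv ℂ k x.2 = T (n - 1) y.2 := by
  unfold V at hx
  induction hx using Submodule.span_induction with
  | mem x hx =>
    obtain ⟨i, j, a, b, hi, hj, hij, ha, hb, rfl⟩ := hx
    refine ⟨(a * b, dl T k i a * b + a * dl T k j b),
      Submodule.subset_span ⟨i, j, a, b, hi, hj, hij, ha, hb, rfl⟩, rfl, ?_⟩
    have hder := isDer_dl h k
    simp only
    rw [pd_mul, map_add, pd_T, pd_T]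
    congr 1
    · have h2 : n - 1 = (i - 1) + j := by omega
      rw [h2, h.2 (i - 1) j (by omega) _ ((hder.1 i (by omega) a ha).1 (by omega)) _ hb]
    · have h2 : n - 1 = i + (j - 1) := by omega
      rw [h2, h.2 i (j - 1) (by omega) _ ha _ ((hder.1 j (by omega) b hb).1 (by omega))]
  | zero => exact ⟨0, Submodule.zero_mem _, rfl, by simp⟩
  | add x y _ _ hx hy =>
    obtain ⟨x', hx', h1, h2⟩ := hx
    obtain ⟨y', hy', h3, h4⟩ := hy
    refine ⟨x' + y', Submodule.add_mem _ hx' hy', by rw [Prod.fst_add, Prod.fst_add, h1, h3], ?_⟩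
    rw [Prod.snd_add, Prod.snd_add, map_add, map_add, h2, h4]
  | smul c x _ hx =>
    obtain ⟨x', hx', h1, h2⟩ := hx
    refine ⟨c • x', Submodule.smul_mem _ _ hx', by rw [Prod.smul_fst, Prod.smul_fst, h1], ?_⟩
    rw [Prod.smul_snd, Prod.smul_snd, Derivation.map_smul, map_smul, h2]

theorem V_claim {T : ℕ → F ≃ₗ[ℂ] F} {n : ℕ} (hn : 1 ≤ n) (h : Good T n) {x : F × F}
    (hx : x ∈ V T n) (h0 : x.1 = 0) : x.2 = 0 := by
  apply eq_zero_of_pd (by omega) (V_mem h hx).2
  intro k
  obtain ⟨y, hy, h1, h2⟩ := V_dl h k hx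
  rw [h2, der_claim (n - 1) 1 n (by omega) _ (isDer_dl h k) y hy (by rw [h1, h0]), map_zero]

theorem V_swap {T : ℕ → F ≃ₗ[ℂ] F} {n : ℕ} (h : Good T n) {x : F × F}
    (hx : x ∈ V T n) : x.swap ∈ V (fun i => (T i).symm) n := by
  unfold V at hx
  induction hx using Submodule.span_induction with
  | mem x hx =>
    obtain ⟨i, j, a, b, hi, hj, hij, ha, hb, rfl⟩ := hx
    apply Submodule.subset_span
    exact ⟨i, j, T i a, T j b, hi, hj, hij, (h.1 i (by omega) a ha).1, (h.1 j (by omega) b hb).1,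
      by simp⟩
  | zero => exact Submodule.zero_mem _
  | add x y _ _ hx hy => exact Submodule.add_mem _ hx hy
  | smul c x _ hx => exact Submodule.smul_mem _ c hx

theorem V_claim' {T : ℕ → F ≃ₗ[ℂ] F} {n : ℕ} (hn : 1 ≤ n) (h : Good T n) {x : F × F}
    (hx : x ∈ V T n) (h0 : x.2 = 0) : x.1 = 0 :=
  V_claim (T := fun i => (T i).symm) hn h.symm (x := x.swap) (V_swap h hx) h0

/-- the extension step -/
theorem extend_step {T : ℕ → F ≃ₗ[ℂ] F} {n : ℕ} (hn : 2 ≤ n) (h : Good T n)
    (hC : ∀ c : ℂ, T 0 (C c) = C c) :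
    ∃ S : F ≃ₗ[ℂ] F, Good (Function.update T n S) (n + 1) := by
  let p1 : V T n →ₗ[ℂ] F := (LinearMap.fst ℂ F F).comp (V T n).subtype
  let p2 : V T n →ₗ[ℂ] F := (LinearMap.snd ℂ F F).comp (V T n).subtype
  have hp1 : Function.Injective p1 := by
    rw [← LinearMap.ker_eq_bot, LinearMap.ker_eq_bot']
    intro x hx
    have h2 := V_claim (by omega) h x.2 hx
    exact Subtype.ext (Prod.ext hx h2)
  have hp2 : Function.Injective p2 := by
    rw [← LinearMap.ker_eq_bot, LinearMap.ker_eq_bot']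
    intro x hx
    have h2 := V_claim' (by omega) h x.2 hx
    exact Subtype.ext (Prod.ext h2 hx)
  have hr : LinearMap.range p2 = LinearMap.range p1 := by
    have hr1 : LinearMap.range p1 = Submodule.map (LinearMap.fst ℂ F F) (V T n) := by
      rw [LinearMap.range_comp, Submodule.range_subtype]
    have hr2 : LinearMap.range p2 = Submodule.map (LinearMap.snd ℂ F F) (V T n) := by
      rw [LinearMap.range_comp, Submodule.range_subtype]
    rw [hr1, hr2]
    unfold V
    rw [Submodule.map_span, Submodule.map_span]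
    apply le_antisymm
    · rw [Submodule.span_le]
      rintro _ ⟨x, ⟨i, j, a, b, hi, hj, hij, ha, hb, rfl⟩, rfl⟩
      apply Submodule.subset_span
      exact ⟨_, ⟨i, j, T i a, T j b, hi, hj, hij, (h.1 i (by omega) a ha).1,
        (h.1 j (by omega) b hb).1, rfl⟩, rfl⟩
    · rw [Submodule.span_le]
      rintro _ ⟨x, ⟨i, j, a, b, hi, hj, hij, ha, hb, rfl⟩, rfl⟩
      apply Submodule.subset_span
      exact ⟨_, ⟨i, j, (T i).symm a, (T j).symm b, hi, hj, hij, (h.1 i (by omega) a ha).2,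
        (h.1 j (by omega) b hb).2, rfl⟩, by simp⟩
  let e1 : V T n ≃ₗ[ℂ] LinearMap.range p1 := LinearEquiv.ofInjective p1 hp1
  let e2 : V T n ≃ₗ[ℂ] LinearMap.range p2 := LinearEquiv.ofInjective p2 hp2
  let th : LinearMap.range p1 ≃ₗ[ℂ] LinearMap.range p1 :=
    (e1.symm.trans e2).trans (LinearEquiv.ofEq _ _ hr)
  obtain ⟨K, hK⟩ := Submodule.exists_isCompl (LinearMap.range p1)
  let P := Submodule.prodEquivOfIsCompl (LinearMap.range p1) K hK
  let S : F ≃ₗ[ℂ] F := (P.symm.trans (th.prodCongr (LinearEquiv.refl ℂ K))).trans P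
  have hrG : ∀ y ∈ LinearMap.range p1, y ∈ G n := by
    rintro _ ⟨x, rfl⟩
    exact (V_mem h x.2).1
  have hS : ∀ (w : LinearMap.range p1) (c : K), S (w + c) = th w + c := by
    intro w c
    change P ((th.prodCongr (LinearEquiv.refl ℂ K)) (P.symm (w + c))) = _
    have : P.symm ((w : F) + c) = (w, c) := by
      rw [LinearEquiv.symm_apply_eq]
      rfl
    rw [this]
    rfl
  have hS' : ∀ (w : LinearMap.range p1) (c : K), S.symm (w + c) = th.symm w + c := by
    intro w c
    rw [LinearEquiv.symm_apply_eq, hS, LinearEquiv.apply_symm_apply]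
  have hdec : ∀ a : F, ∃ (w : LinearMap.range p1) (c : K), a = w + c := by
    intro a
    refine ⟨(P.symm a).1, (P.symm a).2, ?_⟩
    have h1 : P (P.symm a) = a := P.apply_symm_apply a
    exact h1.symm
  have hSV : ∀ x ∈ V T n, S x.1 = x.2 := by
    intro x hx
    have h1 := hS (e1 ⟨x, hx⟩) 0
    have h2 : th (e1 ⟨x, hx⟩) = (LinearEquiv.ofEq _ _ hr) (e2 ⟨x, hx⟩) := by
      change (LinearEquiv.ofEq _ _ hr) (e2 (e1.symm (e1 ⟨x, hx⟩))) = _
      rw [LinearEquiv.symm_apply_apply]
    rw [h2] at h1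
    have h3 : (((e1 ⟨x, hx⟩ : LinearMap.range p1) : F) + ((0 : K) : F)) = x.1 := by
      simp only [ZeroMemClass.coe_zero, add_zero]
      rfl
    have h4 : ((((LinearEquiv.ofEq _ _ hr) (e2 ⟨x, hx⟩) : LinearMap.range p1) : F)
        + ((0 : K) : F)) = x.2 := by
      simp only [ZeroMemClass.coe_zero, add_zero]
      rfl
    rw [h3, h4] at h1
    exact h1
  refine ⟨S, ?_, ?_⟩
  · intro i hi a ha
    rcases Nat.lt_or_ge i n with h1 | h1
    · rw [Function.update_of_ne (by omega)]
      exact h.1 i h1 a ha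
    · have h2 : i = n := by omega
      subst h2
      rw [Function.update_self]
      obtain ⟨w, c, hwc⟩ := hdec a
      have hc : (c : F) ∈ G i := by
        have : (c : F) = a - w := by rw [hwc]; ring
        rw [this]
        exact Submodule.sub_mem _ ha (hrG _ w.2)
      rw [hwc, hS, hS']
      exact ⟨Submodule.add_mem _ (hrG _ (th w).2) hc,
        Submodule.add_mem _ (hrG _ (th.symm w).2) hc⟩
  · intro i j hij a ha b hb
    rcases Nat.lt_or_ge (i + j) n with h1 | h1
    · rw [Function.update_of_ne (by omega), Function.update_of_ne (by omega),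
        Function.update_of_ne (by omega)]
      exact h.2 i j h1 a ha b hb
    · have h2 : i + j = n := by omega
      rcases Nat.eq_zero_or_pos i with h0 | h0
      · subst h0
        obtain ⟨c, rfl⟩ := G_zero ha
        have h3 : j = n := by omega
        subst h3
        rw [zero_add, Function.update_self, Function.update_of_ne (by omega), hC, C_mul', C_mul',
          map_smul]
      · rcases Nat.eq_zero_or_pos j with h0' | h0'
        · subst h0'
          obtain ⟨c, rfl⟩ := G_zero hb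
          have h3 : i = n := by omega
          subst h3
          rw [add_zero, Function.update_self, Function.update_of_ne (by omega), hC, mul_comm,
            C_mul', mul_comm, C_mul', map_smul]
        · rw [h2, Function.update_self, Function.update_of_ne (by omega),
            Function.update_of_ne (by omega)]
          exact hSV (a * b, T i a * T j b)
            (Submodule.subset_span ⟨i, j, a, b, h0, h0', h2, ha, hb, rfl⟩)

/-- every linear automorphism of the degree one part extends to a multiplicative family -/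
theorem exists_family (T1 : F ≃ₗ[ℂ] F) (h1 : ∀ a ∈ G 1, T1 a ∈ G 1 ∧ T1.symm a ∈ G 1) :
    ∃ T : ℕ → F ≃ₗ[ℂ] F, T 1 = T1 ∧ (∀ c : ℂ, T 0 (C c) = C c) ∧ ∀ n, Good T n := by
  classical
  let Ty := {T : ℕ → F ≃ₗ[ℂ] F // (∀ c : ℂ, T 0 (C c) = C c)}
  have hbase : Good (Function.update (fun _ => LinearEquiv.refl ℂ F) 1 T1) 2 := by
    have e0 : Function.update (fun _ : ℕ => LinearEquiv.refl ℂ F) 1 T1 0 =
      LinearEquiv.refl ℂ F := Function.update_of_ne (by omega) _ _
    have e1 : Function.update (fun _ : ℕ => LinearEquiv.refl ℂ F) 1 T1 1 = T1 :=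
      Function.update_self _ _ _
    refine ⟨fun i hi a ha => ?_, fun i j hij a ha b hb => ?_⟩
    · rcases (by omega : i = 0 ∨ i = 1) with h | h
      · subst h
        rw [e0]
        exact ⟨ha, ha⟩
      · subst h
        rw [e1]
        exact h1 a ha
    · rcases (by omega : (i = 0 ∧ j = 0) ∨ (i = 0 ∧ j = 1) ∨ (i = 1 ∧ j = 0)) with h | h | h
      · obtain ⟨rfl, rfl⟩ := h
        rw [add_zero, e0]
        rfl
      · obtain ⟨rfl, rfl⟩ := h
        obtain ⟨c, rfl⟩ := G_zero ha
        rw [zero_add, e0, e1, LinearEquiv.refl_apply, C_mul', C_mul', map_smul]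
      · obtain ⟨rfl, rfl⟩ := h
        obtain ⟨c, rfl⟩ := G_zero hb
        rw [add_zero, e0, e1, LinearEquiv.refl_apply, mul_comm, C_mul', mul_comm, C_mul', map_smul]
  have hstep : ∀ (n : ℕ) (T : {T : ℕ → F ≃ₗ[ℂ] F // (∀ c : ℂ, T 0 (C c) = C c) ∧ Good T (n + 2)}),
      ∃ T' : {T : ℕ → F ≃ₗ[ℂ] F // (∀ c : ℂ, T 0 (C c) = C c) ∧ Good T (n + 1 + 2)},
        ∀ i < n + 2, T'.1 i = T.1 i := by
    rintro n ⟨T, hT, hT'⟩
    obtain ⟨S, hS⟩ := extend_step (by omega) hT' hT
    refine ⟨⟨Function.update T (n + 2) S, ?_, hS⟩, ?_⟩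
    · intro c
      rw [Function.update_of_ne (by omega)]
      exact hT c
    · intro i hi
      exact Function.update_of_ne (by omega) _ _
  choose nx hnx using hstep
  let sq : ∀ n : ℕ, {T : ℕ → F ≃ₗ[ℂ] F // (∀ c : ℂ, T 0 (C c) = C c) ∧ Good T (n + 2)} :=
    fun n => Nat.rec ⟨Function.update (fun _ => LinearEquiv.refl ℂ F) 1 T1, by
      intro c
      rw [Function.update_of_ne (by omega)]
      rfl, hbase⟩ (fun n T => nx n T) n
  have hsq : ∀ n, sq (n + 1) = nx n (sq n) := fun n => rfl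
  have hcoh : ∀ m n i, i < n + 2 → (sq (n + m)).1 i = (sq n).1 i := by
    intro m
    induction m with
    | zero => intro n i _; rfl
    | succ m ih =>
      intro n i hi
      rw [← add_assoc, hsq, hnx _ _ i (by omega), ih n i hi]
  refine ⟨fun i => (sq i).1 i, ?_, ?_, ?_⟩
  · have := hcoh 1 0 1 (by omega)
    rw [zero_add] at this
    beta_reduce
    rw [this]
    exact Function.update_self 1 T1 (fun _ : ℕ => LinearEquiv.refl ℂ F)
  · intro c
    exact (sq 0).2.1 c
  · intro n
    have hall : ∀ i, i < n → (sq i).1 i = (sq n).1 i := by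
      intro i hi
      have := hcoh (n - i) i i (by omega)
      rw [Nat.add_sub_cancel' hi.le] at this
      exact this.symm
    obtain ⟨hg1, hg2⟩ := (sq n).2.2
    refine ⟨fun i hi a ha => ?_, fun i j hij a ha b hb => ?_⟩
    · beta_reduce
      rw [hall i hi]
      exact hg1 i (by omega) a ha
    · beta_reduce
      rw [hall i (by omega), hall j (by omega), hall (i + j) hij]
      exact hg2 i j (by omega) a ha b hb

end

end Pool.Agent.R301.FrAlg
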