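import Pool.Agent.R301.FrAlg

/-!
The algebra of power series in countably many variables whose homogeneous components have absolutely
summable coefficients, its natural Fréchet topology, and a second Fréchet topology.
-/

set_option autoImplicit false

namespace Pool.Agent.R301.FrTop

open MvPowerSeries Pool.Agent.R301.FrAlg

set_option maxHeartbeats 4000000
set_option synthInstance.maxHeartbeats 400000

noncomputable section

/-- homogeneous component -/
def hc (d : ℕ) : F →ₗ[ℂ] F where
  toFun f := fun r => if r.degree = d then coeff r f else 0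
  map_add' f g := by
    ext r
    change (if r.degree = d then coeff r (f + g) else 0) =
      (if r.degree = d then coeff r f else 0) + (if r.degree = d then coeff r g else 0)
    split_ifs
    · rw [map_add]
    · rw [add_zero]
  map_smul' c f := by
    ext r
    change (if r.degree = d then coeff r (c • f) else 0) =
      c • (if r.degree = d then coeff r f else 0)
    split_ifs
    · rw [map_smul]
    · rw [smul_zero]

theorem coeff_hc (d : ℕ) (f : F) (r : ℕ →₀ ℕ) :
    coeff r (hc d f) = if r.degree = d then coeff r f else 0 := rfl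

theorem coeff_hc_self (f : F) (r : ℕ →₀ ℕ) : coeff r (hc r.degree f) = coeff r f := by
  rw [coeff_hc, if_pos rfl]

theorem hc_ext {f g : F} (h : ∀ d, hc d f = hc d g) : f = g := by
  ext r
  rw [← coeff_hc_self f r, ← coeff_hc_self g r, h]

theorem hc_mul (d : ℕ) (f g : F) :
    hc d (f * g) = ∑ q ∈ Finset.HasAntidiagonal.antidiagonal d, hc q.1 f * hc q.2 g := by
  classical
  ext r
  rw [coeff_hc, map_sum]
  have h1 : ∀ q ∈ Finset.HasAntidiagonal.antidiagonal d, coeff r (hc q.1 f * hc q.2 g) =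
      ∑ p ∈ Finset.HasAntidiagonal.antidiagonal r,
        (if q = (p.1.degree, p.2.degree) then coeff p.1 f * coeff p.2 g else 0) := by
    intro q _
    rw [coeff_mul]
    apply Finset.sum_congr rfl
    intro p _
    rw [coeff_hc, coeff_hc]
    by_cases h2 : p.1.degree = q.1
    · by_cases h3 : p.2.degree = q.2
      · rw [if_pos h2, if_pos h3, if_pos (by rw [h2, h3])]
      · rw [if_neg h3, mul_zero, if_neg]
        intro h4
        exact h3 (by rw [h4])
    · rw [if_neg h2, zero_mul, if_neg]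
      intro h4
      exact h2 (by rw [h4])
  rw [Finset.sum_congr rfl h1, Finset.sum_comm]
  by_cases h : r.degree = d
  · rw [if_pos h, coeff_mul]
    apply Finset.sum_congr rfl
    intro p hp
    rw [Finset.sum_ite_eq' (Finset.HasAntidiagonal.antidiagonal d), if_pos]
    rw [Finset.HasAntidiagonal.mem_antidiagonal] at hp ⊢
    simp only
    rw [← map_add, hp, h]
  · rw [if_neg h]
    symm
    apply Finset.sum_eq_zero
    intro p hp
    rw [Finset.sum_ite_eq' (Finset.HasAntidiagonal.antidiagonal d), if_neg]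
    rw [Finset.HasAntidiagonal.mem_antidiagonal] at hp ⊢
    simp only
    rw [← map_add, hp]
    exact h

/-- the algebra of power series whose homogeneous components have absolutely summable
coefficients -/
def A : Subalgebra ℂ F where
  carrier := {f | ∀ d, Summable fun r : ℕ →₀ ℕ => if r.degree = d then ‖coeff r f‖ else 0}
  mul_mem' := by
    intro f g hf hg d
    have key : ∀ (f : F) (d : ℕ),
        (Summable fun r : ℕ →₀ ℕ => if r.degree = d then ‖coeff r f‖ else 0) ↔ hc d f ∈ G d := by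
      intro f d
      have : (fun r : ℕ →₀ ℕ => if r.degree = d then ‖coeff r f‖ else 0) =
          fun r => ‖coeff r (hc d f)‖ := by
        ext r
        rw [coeff_hc]
        split_ifs <;> simp
      rw [this, mem_G]
      refine ⟨fun h => ⟨fun r hr => by rw [coeff_hc, if_neg hr], h⟩, fun h => h.2⟩
    rw [key, hc_mul]
    apply Submodule.sum_mem
    intro q hq
    rw [Finset.HasAntidiagonal.mem_antidiagonal] at hq
    exact G_mul' hq ((key f q.1).mp (hf q.1)) ((key g q.2).mp (hg q.2))
  add_mem' := by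
    intro f g hf hg d
    apply Summable.of_nonneg_of_le (fun r => ?_) (fun r => ?_) ((hf d).add (hg d))
    · split_ifs
      · exact norm_nonneg _
      · exact le_rfl
    · split_ifs
      · rw [map_add]
        exact norm_add_le _ _
      · simp
  algebraMap_mem' := by
    classical
    intro c d
    apply summable_of_ne_finset_zero (s := {0})
    intro r hr
    have : coeff r (algebraMap ℂ F c) = 0 := by
      rw [MvPowerSeries.algebraMap_apply, Algebra.algebraMap_self, RingHom.id_apply, coeff_C,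
        if_neg]
      simpa using hr
    rw [this, norm_zero]
    simp

theorem mem_A (f : F) : f ∈ A ↔ ∀ d, hc d f ∈ G d := by
  have key : ∀ (f : F) (d : ℕ),
      (Summable fun r : ℕ →₀ ℕ => if r.degree = d then ‖coeff r f‖ else 0) ↔ hc d f ∈ G d := by
    intro f d
    have : (fun r : ℕ →₀ ℕ => if r.degree = d then ‖coeff r f‖ else 0) =
        fun r => ‖coeff r (hc d f)‖ := by
      ext r
      rw [coeff_hc]
      split_ifs <;> simp
    rw [this, mem_G]
    refine ⟨fun h => ⟨fun r hr => by rw [coeff_hc, if_neg hr], h⟩, fun h => h.2⟩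
  constructor
  · intro h d
    exact (key f d).mp (h d)
  · intro h d
    exact (key f d).mpr (h d)

theorem G_le {i : ℕ} {f : F} (hf : f ∈ G i) : f ∈ A := by
  rw [mem_A]
  intro d
  by_cases h : d = i
  · subst h
    have : hc d f = f := by
      ext r
      rw [coeff_hc]
      split_ifs with h1
      · rfl
      · rw [hf.1 r h1]
    rw [this]
    exact hf
  · have : hc d f = 0 := by
      ext r
      rw [coeff_hc, map_zero]
      split_ifs with h1
      · apply hf.1
        omega
      · rfl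
    rw [this]
    exact Submodule.zero_mem _

theorem hc_G {i : ℕ} {f : F} (hf : f ∈ G i) : hc i f = f := by
  ext r
  rw [coeff_hc]
  split_ifs with h1
  · rfl
  · rw [hf.1 r h1]

theorem hc_G_ne {i d : ℕ} (h : d ≠ i) {f : F} (hf : f ∈ G i) : hc d f = 0 := by
  ext r
  rw [coeff_hc, map_zero]
  split_ifs with h1
  · apply hf.1
    omega
  · rfl

/-- the sum of the absolute values of the coefficients -/
def nu (f : F) : ℝ := ∑' r : ℕ →₀ ℕ, ‖coeff r f‖

theorem nu_mul {f g : F} (hf : Summable (fun r : ℕ →₀ ℕ => ‖coeff r f‖))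
    (hg : Summable (fun r : ℕ →₀ ℕ => ‖coeff r g‖)) : nu (f * g) ≤ nu f * nu g := by
  have h := Summable.mul_of_nonneg hf hg (fun _ => norm_nonneg _) (fun _ => norm_nonneg _)
  have h1 : nu f * nu g = ∑' r : ℕ →₀ ℕ,
      ∑ q ∈ Finset.HasAntidiagonal.antidiagonal r, ‖coeff q.1 f‖ * ‖coeff q.2 g‖ :=
    Summable.tsum_mul_tsum_eq_tsum_sum_antidiagonal (f := fun r : ℕ →₀ ℕ => ‖coeff r f‖)
      (g := fun r : ℕ →₀ ℕ => ‖coeff r g‖) hf hg h
  rw [h1]
  have h2 := summable_anti hf hg
  apply Summable.tsum_le_tsum (fun r => norm_coeff_mul_le f g r) _ h2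
  exact Summable.of_nonneg_of_le (fun _ => norm_nonneg _) (fun r => norm_coeff_mul_le f g r) h2

theorem nu_add {f g : F} (hf : Summable (fun r : ℕ →₀ ℕ => ‖coeff r f‖))
    (hg : Summable (fun r : ℕ →₀ ℕ => ‖coeff r g‖)) : nu (f + g) ≤ nu f + nu g := by
  unfold nu
  rw [← hf.tsum_add hg]
  apply Summable.tsum_le_tsum _ _ (hf.add hg)
  · intro r
    rw [map_add]
    exact norm_add_le _ _
  · apply Summable.of_nonneg_of_le (fun _ => norm_nonneg _) (fun r => ?_) (hf.add hg)
    rw [map_add]
    exact norm_add_le _ _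

theorem nu_nonneg (f : F) : 0 ≤ nu f := tsum_nonneg fun _ => norm_nonneg _

theorem nu_smul (c : ℂ) (f : F) : nu (c • f) = ‖c‖ * nu f := by
  unfold nu
  rw [← tsum_mul_left]
  apply tsum_congr
  intro r
  rw [map_smul, norm_smul]

theorem le_nu {f : F} (hf : Summable (fun r : ℕ →₀ ℕ => ‖coeff r f‖)) (r : ℕ →₀ ℕ) :
    ‖coeff r f‖ ≤ nu f := hf.le_tsum r (fun _ _ => norm_nonneg _)

theorem nu_zero : nu 0 = 0 := by
  unfold nu
  simp

/-- the seminorm given by the component of degree `d` -/
def sn (d : ℕ) : Seminorm ℂ A :=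
  Seminorm.of (fun f => nu (hc d f.1))
    (fun f g => by
      have hf := ((mem_A _).mp f.2 d).2
      have hg := ((mem_A _).mp g.2 d).2
      have : ((f + g : A) : F) = f.1 + g.1 := rfl
      rw [this, map_add]
      exact nu_add hf hg)
    (fun c f => by
      have : ((c • f : A) : F) = c • f.1 := rfl
      rw [this, map_smul, nu_smul])

theorem sn_apply (d : ℕ) (f : A) : sn d f = nu (hc d f.1) := rfl

theorem nu_sum (s : Finset (ℕ × ℕ)) (u : ℕ × ℕ → F)
    (hu : ∀ q ∈ s, Summable (fun r : ℕ →₀ ℕ => ‖coeff r (u q)‖)) :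
    Summable (fun r : ℕ →₀ ℕ => ‖coeff r (∑ q ∈ s, u q)‖) ∧ nu (∑ q ∈ s, u q) ≤ ∑ q ∈ s, nu (u q) := by
  classical
  induction s using Finset.induction_on with
  | empty =>
    simp only [Finset.sum_empty, map_zero, norm_zero]
    exact ⟨summable_zero, nu_zero.le⟩
  | insert q s hq ih =>
    obtain ⟨h1, h2⟩ := ih (fun q hq => hu q (Finset.mem_insert_of_mem hq))
    have h3 := hu q (Finset.mem_insert_self _ _)
    rw [Finset.sum_insert hq, Finset.sum_insert hq]
    refine ⟨?_, (nu_add h3 h1).trans (by linarith)⟩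
    apply Summable.of_nonneg_of_le (fun _ => norm_nonneg _) (fun r => ?_) (h3.add h1)
    rw [map_add]
    exact norm_add_le _ _

theorem sn_mul (d : ℕ) (f g : A) :
    sn d (f * g) ≤ ∑ q ∈ Finset.HasAntidiagonal.antidiagonal d, sn q.1 f * sn q.2 g := by
  rw [sn_apply]
  have : ((f * g : A) : F) = f.1 * g.1 := rfl
  rw [this, hc_mul]
  have hs : ∀ q ∈ Finset.HasAntidiagonal.antidiagonal d,
      Summable (fun r : ℕ →₀ ℕ => ‖coeff r (hc q.1 f.1 * hc q.2 g.1)‖) := by
    intro q _
    have hf := ((mem_A _).mp f.2 q.1)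
    have hg := ((mem_A _).mp g.2 q.2)
    exact (G_mul hf hg).2
  refine (nu_sum _ (fun q => hc q.1 f.1 * hc q.2 g.1) hs).2.trans ?_
  apply Finset.sum_le_sum
  intro q _
  exact nu_mul ((mem_A _).mp f.2 q.1).2 ((mem_A _).mp g.2 q.2).2

/-- the defining seminorms -/
def p (m : ℕ) : Seminorm ℂ A :=
  Seminorm.of (fun f => ∑ d ∈ Finset.range (m + 1), sn d f)
    (fun f g => by
      rw [← Finset.sum_add_distrib]
      exact Finset.sum_le_sum fun d _ => map_add_le_add _ _ _)
    (fun c f => by
      rw [Finset.mul_sum]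
      exact Finset.sum_congr rfl fun d _ => map_smul_eq_mul _ _ _)

theorem p_apply (m : ℕ) (f : A) : p m f = ∑ d ∈ Finset.range (m + 1), sn d f := rfl

theorem p_mono : Monotone p := by
  intro m n h f
  change p m f ≤ p n f
  rw [p_apply, p_apply]
  apply Finset.sum_le_sum_of_subset_of_nonneg
  · exact Finset.range_mono (by omega)
  · intro d _ _
    exact apply_nonneg _ _

theorem p_mul (m : ℕ) (f g : A) : p m (f * g) ≤ p m f * p m g := by
  rw [p_apply, p_apply, p_apply, Finset.sum_mul_sum]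
  calc ∑ d ∈ Finset.range (m + 1), sn d (f * g)
      ≤ ∑ d ∈ Finset.range (m + 1), ∑ q ∈ Finset.HasAntidiagonal.antidiagonal d,
          sn q.1 f * sn q.2 g := Finset.sum_le_sum fun d _ => sn_mul d f g
    _ = ∑ x ∈ (Finset.range (m + 1)).sigma (fun d => Finset.HasAntidiagonal.antidiagonal d),
          sn x.2.1 f * sn x.2.2 g := by rw [Finset.sum_sigma]
    _ ≤ ∑ y ∈ (Finset.range (m + 1)) ×ˢ (Finset.range (m + 1)), sn y.1 f * sn y.2 g := by
        have hinj : Set.InjOn (fun x : (Σ _ : ℕ, ℕ × ℕ) => x.2)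
            ((Finset.range (m + 1)).sigma
              (fun d => Finset.HasAntidiagonal.antidiagonal d) : Finset (Σ _ : ℕ, ℕ × ℕ)) := by
          rintro ⟨d, q⟩ hx ⟨d', q'⟩ hy hxy
          simp only [Finset.coe_sigma, Set.mem_sigma_iff, Finset.mem_coe,
            Finset.HasAntidiagonal.mem_antidiagonal] at hx hy hxy
          subst hxy
          have : d = d' := by rw [← hx.2, ← hy.2]
          subst this
          rfl
        rw [← Finset.sum_image (f := fun y : ℕ × ℕ => sn y.1 f * sn y.2 g) hinj]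
        apply Finset.sum_le_sum_of_subset_of_nonneg
        · intro y hy
          rw [Finset.mem_image] at hy
          obtain ⟨⟨d, q⟩, hx, rfl⟩ := hy
          rw [Finset.mem_sigma, Finset.HasAntidiagonal.mem_antidiagonal, Finset.mem_range] at hx
          rw [Finset.mem_product, Finset.mem_range, Finset.mem_range]
          simp only at hx ⊢
          omega
        · intro y _ _
          exact mul_nonneg (apply_nonneg _ _) (apply_nonneg _ _)
    _ = ∑ i ∈ Finset.range (m + 1), ∑ j ∈ Finset.range (m + 1), sn i f * sn j g := by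
        rw [Finset.sum_product]

theorem p_sep (f : A) (h : ∀ m, p m f = 0) : f = 0 := by
  apply Subtype.ext
  apply hc_ext
  intro d
  ext r
  have h1 := h d
  rw [p_apply] at h1
  have h2 : sn d f ≤ 0 := by
    rw [← h1]
    exact Finset.single_le_sum (f := fun d => sn d f) (fun i _ => apply_nonneg _ _)
      (Finset.mem_range.mpr (by omega))
  have h3 := le_nu ((mem_A _).mp f.2 d).2 r
  rw [sn_apply] at h2
  have h4 : ‖coeff r (hc d f.1)‖ ≤ 0 := h3.trans h2
  rw [norm_le_zero_iff] at h4
  rw [h4]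
  simp

/-- the components as elements of `ℓ¹` -/
def L (d : ℕ) (f : A) : lp (fun _ : ℕ →₀ ℕ => ℂ) 1 :=
  ⟨fun r => coeff r (hc d f.1), by
    have h : Memℓp (fun r : ℕ →₀ ℕ => coeff r (hc d f.1)) 1 := by
      rw [memℓp_gen_iff (by simp)]
      simpa using ((mem_A _).mp f.2 d).2
    exact h⟩

theorem L_apply (d : ℕ) (f : A) (r : ℕ →₀ ℕ) : L d f r = coeff r (hc d f.1) := rfl

theorem norm_lp (z : lp (fun _ : ℕ →₀ ℕ => ℂ) 1) : ‖z‖ = ∑' r, ‖z r‖ := by
  rw [lp.norm_eq_tsum_rpow (by simp)]
  simp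

theorem norm_L_sub (d : ℕ) (f g : A) : ‖L d f - L d g‖ = sn d (f - g) := by
  rw [norm_lp, sn_apply]
  unfold nu
  apply tsum_congr
  intro r
  have h1 : ((f - g : A) : F) = f.1 - g.1 := rfl
  rw [h1, map_sub, map_sub, lp.coeFn_sub, Pi.sub_apply, L_apply, L_apply]

theorem sn_le_p (d : ℕ) (f : A) : sn d f ≤ p d f := by
  rw [p_apply]
  exact Finset.single_le_sum (f := fun d => sn d f) (fun i _ => apply_nonneg _ _)
    (Finset.mem_range.mpr (by omega))

theorem p_complete (u : ℕ → A)
    (hu : ∀ m, ∀ ε > 0, ∃ N, ∀ i ≥ N, ∀ j ≥ N, p m (u i - u j) < ε) :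
    ∃ x, ∀ m, ∀ ε > 0, ∃ N, ∀ i ≥ N, p m (u i - x) < ε := by
  have hc1 : ∀ d, CauchySeq (fun i => L d (u i)) := by
    intro d
    rw [Metric.cauchySeq_iff]
    intro ε hε
    obtain ⟨N, hN⟩ := hu d ε hε
    refine ⟨N, fun i hi j hj => ?_⟩
    rw [dist_eq_norm, norm_L_sub]
    exact (sn_le_p d _).trans_lt (hN i hi j hj)
  have hlim : ∀ d, ∃ z, Filter.Tendsto (fun i => L d (u i)) Filter.atTop (nhds z) :=
    fun d => cauchySeq_tendsto_of_complete (hc1 d)
  choose z hz using hlim
  have hzr : ∀ d r, Filter.Tendsto (fun i => coeff r (hc d (u i).1)) Filter.atTop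
      (nhds (z d r)) := by
    intro d r
    have h1 : Filter.Tendsto (fun i => ‖L d (u i) - z d‖) Filter.atTop (nhds 0) := by
      rw [← tendsto_iff_norm_sub_tendsto_zero]
      exact hz d
    rw [tendsto_iff_norm_sub_tendsto_zero]
    apply squeeze_zero (fun _ => norm_nonneg _) (fun i => ?_) h1
    have := lp.norm_apply_le_norm (p := 1) (by simp) (L d (u i) - z d) r
    rw [lp.coeFn_sub, Pi.sub_apply] at this
    exact this
  have hz0 : ∀ d r, r.degree ≠ d → z d r = 0 := by
    intro d r h
    have h1 := hzr d r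
    have h2 : (fun i => coeff r (hc d (u i).1)) = fun _ => (0 : ℂ) := by
      ext i
      rw [coeff_hc, if_neg h]
    rw [h2] at h1
    exact tendsto_nhds_unique h1 tendsto_const_nhds
  let x0 : F := fun r => z r.degree r
  have hx0 : ∀ d r, coeff r (hc d x0) = z d r := by
    intro d r
    rw [coeff_hc]
    split_ifs with h
    · subst h
      rfl
    · rw [hz0 d r h]
  have hx : x0 ∈ A := by
    rw [mem_A]
    intro d
    refine ⟨fun r hr => by rw [coeff_hc, if_neg hr], ?_⟩
    have h1 := lp.memℓp (z d)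
    rw [memℓp_gen_iff (by simp)] at h1
    have h2 : (fun r : ℕ →₀ ℕ => ‖coeff r (hc d x0)‖) = fun r => ‖z d r‖ := by
      ext r
      rw [hx0]
    rw [h2]
    simpa using h1
  have hL : ∀ d, L d ⟨x0, hx⟩ = z d := by
    intro d
    ext r
    exact hx0 d r
  refine ⟨⟨x0, hx⟩, fun m ε hε => ?_⟩
  have ht : Filter.Tendsto (fun i => p m (u i - ⟨x0, hx⟩)) Filter.atTop (nhds 0) := by
    have h0 : (0 : ℝ) = ∑ d ∈ Finset.range (m + 1), 0 := by simp
    rw [h0]
    simp only [p_apply]
    apply tendsto_finsetSum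
    intro d _
    have h1 : Filter.Tendsto (fun i => ‖L d (u i) - z d‖) Filter.atTop (nhds 0) := by
      rw [← tendsto_iff_norm_sub_tendsto_zero]
      exact hz d
    refine h1.congr ?_
    intro i
    rw [← hL d, norm_L_sub]
  have h1 := ht.eventually (gt_mem_nhds hε)
  rw [Filter.eventually_atTop] at h1
  exact h1

/-! ### The automorphism -/

section auto

variable (T : ℕ → F ≃ₗ[ℂ] F)

def thF (f : F) : F := fun r => coeff r (T r.degree (hc r.degree f))

theorem coeff_thF (f : F) (r : ℕ →₀ ℕ) :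
    coeff r (thF T f) = coeff r (T r.degree (hc r.degree f)) := rfl

variable {T}

theorem hc_thF (hT : ∀ n, Good T n) {f : F} (hf : f ∈ A) (d : ℕ) :
    hc d (thF T f) = T d (hc d f) := by
  ext r
  rw [coeff_hc, coeff_thF]
  split_ifs with h
  · rw [h]
  · have h1 := ((hT (d + 1)).1 d (by omega) _ ((mem_A f).mp hf d)).1
    rw [h1.1 r h]

theorem thF_mem (hT : ∀ n, Good T n) {f : F} (hf : f ∈ A) : thF T f ∈ A := by
  rw [mem_A]
  intro d
  rw [hc_thF hT hf]
  exact ((hT (d + 1)).1 d (by omega) _ ((mem_A f).mp hf d)).1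

/-- the linear map of `A` given by the family `T` -/
def th (hT : ∀ n, Good T n) : A →ₗ[ℂ] A where
  toFun f := ⟨thF T f.1, thF_mem hT f.2⟩
  map_add' f g := by
    apply Subtype.ext
    ext r
    change coeff r (T r.degree (hc r.degree (f.1 + g.1))) =
      coeff r (T r.degree (hc r.degree f.1)) + coeff r (T r.degree (hc r.degree g.1))
    rw [map_add, map_add, map_add]
  map_smul' c f := by
    apply Subtype.ext
    ext r
    change coeff r (T r.degree (hc r.degree (c • f.1))) =
      c • coeff r (T r.degree (hc r.degree f.1))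
    rw [map_smul, map_smul, map_smul]

theorem th_val (hT : ∀ n, Good T n) (f : A) : (th hT f).1 = thF T f.1 := rfl

theorem th_mul (hT : ∀ n, Good T n) (f g : A) : th hT (f * g) = th hT f * th hT g := by
  apply Subtype.ext
  apply hc_ext
  intro d
  have h1 : ((th hT f * th hT g : A) : F) = thF T f.1 * thF T g.1 := rfl
  rw [h1, th_val, hc_thF hT (f * g).2, hc_mul]
  have h2 : ((f * g : A) : F) = f.1 * g.1 := rfl
  rw [h2, hc_mul, map_sum]
  apply Finset.sum_congr rfl
  intro q hq
  rw [Finset.HasAntidiagonal.mem_antidiagonal] at hq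
  rw [hc_thF hT f.2, hc_thF hT g.2, ← hq]
  exact (hT (q.1 + q.2 + 1)).2 q.1 q.2 (by omega) _ ((mem_A _).mp f.2 _) _ ((mem_A _).mp g.2 _)

theorem th_symm (hT : ∀ n, Good T n) (f : A) :
    th (T := fun i => (T i).symm) (fun n => (hT n).symm) (th hT f) = f := by
  apply Subtype.ext
  apply hc_ext
  intro d
  rw [th_val, hc_thF (fun n => (hT n).symm) (th hT f).2, th_val, hc_thF hT f.2]
  simp

theorem th_symm' (hT : ∀ n, Good T n) (f : A) :
    th hT (th (T := fun i => (T i).symm) (fun n => (hT n).symm) f) = f := by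
  apply Subtype.ext
  apply hc_ext
  intro d
  rw [th_val, hc_thF hT (th _ f).2, th_val, hc_thF (fun n => (hT n).symm) f.2]
  simp

/-- the transported seminorms -/
def q (hT : ∀ n, Good T n) (m : ℕ) : Seminorm ℂ A := (p m).comp (th hT)

theorem q_apply (hT : ∀ n, Good T n) (m : ℕ) (f : A) : q hT m f = p m (th hT f) := rfl

theorem q_mono (hT : ∀ n, Good T n) : Monotone (q hT) := by
  intro m n h f
  exact p_mono h (th hT f)

theorem q_mul (hT : ∀ n, Good T n) (m : ℕ) (f g : A) : q hT m (f * g) ≤ q hT m f * q hT m g := by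
  rw [q_apply, th_mul]
  exact p_mul _ _ _

theorem q_sep (hT : ∀ n, Good T n) (f : A) (h : ∀ m, q hT m f = 0) : f = 0 := by
  have h1 := p_sep (th hT f) h
  rw [← th_symm hT f, h1, map_zero]

theorem q_complete (hT : ∀ n, Good T n) (u : ℕ → A)
    (hu : ∀ m, ∀ ε > 0, ∃ N, ∀ i ≥ N, ∀ j ≥ N, q hT m (u i - u j) < ε) :
    ∃ x, ∀ m, ∀ ε > 0, ∃ N, ∀ i ≥ N, q hT m (u i - x) < ε := by
  obtain ⟨x, hx⟩ := p_complete (fun i => th hT (u i)) (fun m ε hε => by
    obtain ⟨N, hN⟩ := hu m ε hε
    refine ⟨N, fun i hi j hj => ?_⟩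
    have := hN i hi j hj
    rwa [q_apply, map_sub] at this)
  refine ⟨th (T := fun i => (T i).symm) (fun n => (hT n).symm) x, fun m ε hε => ?_⟩
  obtain ⟨N, hN⟩ := hx m ε hε
  refine ⟨N, fun i hi => ?_⟩
  rw [q_apply, map_sub, th_symm']
  exact hN i hi

end auto

/-! ### Elements of degree one -/

theorem degree_one {r : ℕ →₀ ℕ} (h : r.degree = 1) : ∃ j, r = Finsupp.single j 1 := by
  have h0 : r ≠ 0 := by
    rintro rfl
    simp at h
  obtain ⟨j, hj⟩ := Finsupp.ne_iff.mp h0
  refine ⟨j, ?_⟩
  have h1 : 1 ≤ r j := Nat.one_le_iff_ne_zero.mpr hj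
  have h2 : Finsupp.single j 1 ≤ r := by
    rw [Finsupp.single_le_iff]
    exact h1
  obtain ⟨s, hs⟩ := exists_add_of_le h2
  rw [hs, map_add, Finsupp.degree_single] at h
  have h3 : s.degree = 0 := by omega
  rw [Finsupp.degree_eq_zero_iff] at h3
  rw [hs, h3, add_zero]

def idx (r : ℕ →₀ ℕ) : ℕ := r.sum fun j n => j * n

theorem idx_single (j : ℕ) : idx (Finsupp.single j 1) = j := by
  unfold idx
  rw [Finsupp.sum_single_index] <;> simp

/-- the linear form with coefficients `c` -/
def lin (c : ℕ → ℂ) : F := fun r => if r.degree = 1 then c (idx r) else 0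

theorem coeff_lin (c : ℕ → ℂ) (r : ℕ →₀ ℕ) :
    coeff r (lin c) = if r.degree = 1 then c (idx r) else 0 := rfl

theorem coeff_lin_single (c : ℕ → ℂ) (j : ℕ) : coeff (Finsupp.single j 1) (lin c) = c j := by
  rw [coeff_lin, if_pos (Finsupp.degree_single j 1), idx_single]

theorem sing_inj : Function.Injective (fun j : ℕ => (Finsupp.single j 1 : ℕ →₀ ℕ)) :=
  Finsupp.single_left_injective one_ne_zero

theorem coeff_lin_out (c : ℕ → ℂ) (r : ℕ →₀ ℕ)
    (hr : r ∉ Set.range (fun j : ℕ => (Finsupp.single j 1 : ℕ →₀ ℕ))) : coeff r (lin c) = 0 := by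
  rw [coeff_lin, if_neg]
  intro h
  obtain ⟨j, hj⟩ := degree_one h
  exact hr ⟨j, hj.symm⟩

theorem lin_mem {c : ℕ → ℂ} (hc : Summable fun j => ‖c j‖) : lin c ∈ G 1 := by
  refine ⟨fun r hr => by rw [coeff_lin, if_neg hr], ?_⟩
  rw [← sing_inj.summable_iff]
  · refine hc.congr ?_
    intro j
    rw [Function.comp, coeff_lin_single]
  · intro r hr
    rw [coeff_lin_out c r hr, norm_zero]

theorem nu_lin (c : ℕ → ℂ) : nu (lin c) = ∑' j, ‖c j‖ := by
  unfold nu
  rw [← sing_inj.tsum_eq (f := fun r => ‖coeff r (lin c)‖)]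
  · apply tsum_congr
    intro j
    rw [coeff_lin_single]
  · intro r hr
    by_contra h
    apply hr
    simp only
    rw [coeff_lin_out c r h, norm_zero]

theorem X_mem_G (j : ℕ) : (X j : F) ∈ G 1 := by
  classical
  refine ⟨fun r hr => ?_, ?_⟩
  · rw [coeff_X, if_neg]
    rintro rfl
    exact hr (Finsupp.degree_single j 1)
  · apply summable_of_ne_finset_zero (s := {Finsupp.single j 1})
    intro r hr
    rw [coeff_X, if_neg, norm_zero]
    simpa using hr

/-- the coefficients of the special element -/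
def cf (j : ℕ) : ℂ := (((1 / 2 : ℝ) ^ j : ℝ) : ℂ)

theorem norm_cf (j : ℕ) : ‖cf j‖ = (1 / 2 : ℝ) ^ j := by
  unfold cf
  rw [Complex.norm_real, Real.norm_of_nonneg (by positivity)]

theorem summable_cf : Summable fun j => ‖cf j‖ := by
  simp only [norm_cf]
  exact summable_geometric_of_lt_one (by norm_num) (by norm_num)

theorem lin_cf_notMem : lin cf ∉ Submodule.span ℂ (Set.range fun j : ℕ => (X j : F)) := by
  classical
  intro h
  have key : ∀ f ∈ Submodule.span ℂ (Set.range fun j : ℕ => (X j : F)),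
      {r : ℕ →₀ ℕ | coeff r f ≠ 0}.Finite := by
    intro f hf
    induction hf using Submodule.span_induction with
    | mem x hx =>
      obtain ⟨j, rfl⟩ := hx
      apply (Set.finite_singleton (Finsupp.single j 1)).subset
      intro r hr
      simp only [Set.mem_ofPred_eq, coeff_X] at hr
      by_contra h1
      apply hr
      rw [if_neg]
      exact h1
    | zero => simp
    | add x y _ _ hx hy =>
      apply (hx.union hy).subset
      intro r hr
      simp only [Set.mem_ofPred_eq, map_add, Set.mem_union] at hr ⊢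
      by_contra hcon
      push Not at hcon
      apply hr
      rw [hcon.1, hcon.2, add_zero]
    | smul c x _ hx =>
      apply hx.subset
      intro r hr
      simp only [Set.mem_ofPred_eq, map_smul] at hr ⊢
      intro h0
      apply hr
      rw [h0, smul_zero]
  have h1 := key _ h
  have h2 : Set.range (fun j : ℕ => (Finsupp.single j 1 : ℕ →₀ ℕ)) ⊆
      {r : ℕ →₀ ℕ | coeff r (lin cf) ≠ 0} := by
    rintro _ ⟨j, rfl⟩
    simp only [Set.mem_ofPred_eq]
    rw [coeff_lin_single]
    intro h3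
    have h4 := norm_cf j
    rw [h3, norm_zero] at h4
    have : (0 : ℝ) < (1 / 2) ^ j := by positivity
    linarith
  exact (Set.infinite_range_of_injective sing_inj) (h1.subset h2)

/-- a discontinuous linear automorphism of the degree one part -/
theorem exists_T1 : ∃ T1 : F ≃ₗ[ℂ] F, (∀ a ∈ G 1, T1 a ∈ G 1 ∧ T1.symm a ∈ G 1) ∧
    (∀ j, T1 (X j) = X j) ∧ T1 (lin cf) = lin cf + X 0 := by
  have hex : ∃ l : F →ₗ[ℂ] ℂ, (∀ j, l (X j) = 0) ∧ l (lin cf) = 1 := by
    obtain ⟨l, hl1, hl2⟩ := Submodule.exists_le_ker_of_notMem lin_cf_notMem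
    refine ⟨(l (lin cf))⁻¹ • l, fun j => ?_, ?_⟩
    · have : l (X j) = 0 := hl2 (Submodule.subset_span ⟨j, rfl⟩)
      rw [LinearMap.smul_apply, this, smul_zero]
    · rw [LinearMap.smul_apply, smul_eq_mul, inv_mul_cancel₀ hl1]
  obtain ⟨l, hl, hl1⟩ := hex
  let u : F →ₗ[ℂ] F := LinearMap.id + l.smulRight (X 0)
  let v : F →ₗ[ℂ] F := LinearMap.id - l.smulRight (X 0)
  have hu : ∀ x, u x = x + l x • X 0 := fun x => rfl
  have hv : ∀ x, v x = x - l x • X 0 := fun x => rfl
  have huv : ∀ x, u (v x) = x := by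
    intro x
    rw [hu, hv, map_sub, map_smul, hl, smul_zero, sub_zero, sub_add_cancel]
  have hvu : ∀ x, v (u x) = x := by
    intro x
    rw [hv, hu, map_add, map_smul, hl, smul_zero, add_zero, add_sub_cancel_right]
  let T1 : F ≃ₗ[ℂ] F := LinearEquiv.ofLinearMap u v (LinearMap.ext huv) (LinearMap.ext hvu)
  have h1 : ∀ x, T1 x = x + l x • X 0 := fun x => rfl
  have h2 : ∀ x, T1.symm x = x - l x • X 0 := fun x => rfl
  refine ⟨T1, fun a ha => ⟨?_, ?_⟩, fun j => ?_, ?_⟩
  · rw [h1]
    exact Submodule.add_mem _ ha (Submodule.smul_mem _ _ (X_mem_G 0))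
  · rw [h2]
    exact Submodule.sub_mem _ ha (Submodule.smul_mem _ _ (X_mem_G 0))
  · rw [h1, hl, zero_smul, add_zero]
  · rw [h1, hl1, one_smul]

end

end Pool.Agent.R301.FrTop
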